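import Pool.Agent.Run7.h821.GfJ

/-!
# Iitaka's inequality for the fibrations of the images of fibrations by curves

Let `V` be a smooth projective variety over `ℂ` of dimension `n + 1` and let `V ⇢ X` be a fibration by
curves; the curves are arbitrary and may vary in moduli as much as possible. Suppose that `X` is given
as the image of `V` in a product of varieties `X 0 × ... × X (k - 1)`, and let `𝓛 i` be linear systems
on the `X i` (linear systems of line bundles `L i`; in this file `H i` is the set of the quotients of
their sections by a fixed one). Suppose that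

* there are as many forms `ω j`, sections of `K_V - ∑ L i`, linearly independent over the function
  field of `X`, as the genus of the curves.

Let `V ⇢ W` be any dominant rational map of finite degree. It need not be related to the fibration,
and its ramification is arbitrary. Let `W_i` be the image of `V` in `W × X 0 × ... × X (i - 1)`. A
point of `W_i` has `d i` points of `X i` below it, i.e. such that `V` has a point with these images in
`W_i` and `X i`. The conditions are

* (One) the points of `X i` below one point of `W_i` impose independent conditions on `𝓛 i`,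
* (Two) the points of `X i` below two points of `W_i` impose independent conditions on `𝓛 i`.

Criteria: `𝓛 i` separates `d i` points, respectively `2 d i` points; or `𝓛 i` contains all forms of
degree `ρ i`, respectively `2 ρ i + 1`, in coordinates `1, t 1, ..., t m` of `X i`, where `ρ i` is the
regularity index of the points below one point of `W_i`, i.e. all functions on them are polynomials of
degree at most `ρ i` in the `t j`. One has `ρ i ≤ d i - 1`, with equality only for points on a line.

**Theorem.** Let `W ⇢ Y` be any dominant rational map with `κ(Y) ≥ 0` and generic fibre `F`; it has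
nothing to do with `V ⇢ X`.
* In case (One), if `K_F` is pseudo-effective then `p_g(W) ≠ 0`.
* In case (Two), if `K_F` is pseudo-effective then `κ(W) ≥ dim W - 1`; and always
  `κ(W) ≥ κ(F) + κ(Y)`.

Neither `Y` nor `F` need be of general type, and `F` is not supposed to have a good minimal model.

Proof. Let `W'` be the image of `V` in `W × X`, fibred over `X` by images of the curves, of geometric
genus `γ`. The traces of the forms `ω j` generate the regular differentials of these images. If
`γ = 0` then `W` is uniruled; then `K_F` is not pseudo-effective if `κ(Y) ≥ 0` (starting file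
`R882/UC`). If `γ ≥ 1` then the traces of the forms `s 0 ... s (k - 1) ω j`, `s i ∈ 𝓛 i`, show that
`p_g(W) ≠ 0` in case (One), that the image of the canonical map of `W` has dimension at least
`dim W - 1` in case (Two), and that `W` is of general type in case (Two) if `γ ≥ 2`. It remains to see
that `Y` and `F` are not both of general type if `γ = 1`: the map from the curves of genus one in `W'`
to `Y` would be constant, so that they would be in the fibres of `W' ⇢ Y`, and the numerical
dimension of these fibres, which are finite covers of `F`, would be less than their dimension.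

The function-field language of the starting repository is used: `K`, `L` and `F i` are the function
fields of `V`, `W` and `X i`, and `Y` is the function field of `Y`, a subfield of `L`; the generic
fibre `F` has the function field `L` over the field `Y`. `KodGe k K w _ h` says that `κ ≥ h` for the
varieties of dimension `w` over `k` with the function field `K`, and `Psef k K w _` that the canonical
divisor of these is pseudo-effective (with empty boundary).
-/

set_option autoImplicit false
set_option linter.overlappingInstances false
set_option maxHeartbeats 4000000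
set_option synthInstance.maxHeartbeats 400000

open FF Module IntermediateField Pool.Agent Pool.Agent.W602.GT

namespace Pool.Agent.Results.MP_f72953_ag.ImagesOfCurveFibrations

section

variable {K : Type} [Field K] [Algebra ℂ K] {L : Type} [Field L] [Algebra ℂ L] [Algebra L K]
  [IsScalarTower ℂ L K]

/-- Let `K` be the function field of a variety `V`, and let `M` and `E` be the function fields of
varieties `W_i` and `X_i` which are dominated by `V`. The points of `X_i` below the (generic) point
`α` of `W_i`, with coordinates in the field `Ω`: there is a point `τ` of `V` with the image `α` in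
`W_i` and the image `σ` in `X_i`. -/
def Below (M : IntermediateField L K) (E : IntermediateField ℂ K) {Ω : Type} [Field Ω]
    [Algebra ℂ Ω] (α : M →ₐ[ℂ] Ω) : Set (E →ₐ[ℂ] Ω) :=
  {σ | ∃ τ : K →ₐ[ℂ] Ω, (∀ z : M, τ z = α z) ∧ ∀ z : E, τ z = σ z}

/-- (One) The points of `X_i` below a point of `W_i` impose independent conditions on the linear
system `H`: a relation `∑ c σ * σ f = 0` for all `f ∈ H` is trivial. -/
def OneFibre (M : IntermediateField L K) (E : IntermediateField ℂ K) (H : Set E) : Prop :=
  ∀ (Ω : Type) [Field Ω] [Algebra ℂ Ω] [IsAlgClosed Ω] (α : M →ₐ[ℂ] Ω)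
    (A : Finset (E →ₐ[ℂ] Ω)), (∀ σ ∈ A, σ ∈ Below M E α) →
    ∀ c : (E →ₐ[ℂ] Ω) → Ω, (∀ f ∈ H, ∑ σ ∈ A, c σ * σ f = 0) → ∀ σ ∈ A, c σ = 0

/-- (Two) The points of `X_i` below two points of `W_i` impose independent conditions on the linear
system `H`. -/
def TwoFibres (M : IntermediateField L K) (E : IntermediateField ℂ K) (H : Set E) : Prop :=
  ∀ (Ω : Type) [Field Ω] [Algebra ℂ Ω] [IsAlgClosed Ω] (α β : M →ₐ[ℂ] Ω)
    (A : Finset (E →ₐ[ℂ] Ω)), (∀ σ ∈ A, σ ∈ Below M E α ∨ σ ∈ Below M E β) →
    ∀ c : (E →ₐ[ℂ] Ω) → Ω, (∀ f ∈ H, ∑ σ ∈ A, c σ * σ f = 0) → ∀ σ ∈ A, c σ = 0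

/-- The linear system `H` on the variety with the function field `E` separates `r` points: at most
`r` different points impose independent conditions. -/
def SeparatesPoints (E : IntermediateField ℂ K) (H : Set E) (r : ℕ) : Prop :=
  ∀ (Ω : Type) [Field Ω] [Algebra ℂ Ω] [IsAlgClosed Ω] (A : Finset (E →ₐ[ℂ] Ω)), A.card ≤ r →
    ∀ c : (E →ₐ[ℂ] Ω) → Ω, (∀ f ∈ H, ∑ σ ∈ A, c σ * σ f = 0) → ∀ σ ∈ A, c σ = 0

/-- The functions `t j` generate the function field `E`, and the regularity index of the points below
a point of the variety with the function field `M` is at most `ρ`: the functions on the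
compositum are polynomials of degree at most `ρ` in the `t j`, with coefficients in `M`. -/
def RegularityLe (M : IntermediateField L K) (E : IntermediateField ℂ K) {m : ℕ} (t : Fin m → E)
    (ρ : ℕ) : Prop :=
  IntermediateField.adjoin ℂ (Set.range t) = ⊤ ∧
    ∀ z ∈ IntermediateField.adjoin M (E : Set K), ∃ p : MvPolynomial (Fin m) M,
      p.totalDegree ≤ ρ ∧ MvPolynomial.aeval (fun j => (t j : K)) p = z

/-- The number of the points of `X_i` below a point of `W_i`: the degree over `M` of the compositum. -/
noncomputable def deg (M : IntermediateField L K) (E : IntermediateField ℂ K) : ℕ :=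
  finrank M (IntermediateField.adjoin M (E : Set K))

/-- The linear system `H` contains all forms of degree `D` in the coordinates `1, t`. -/
def AllForms {E : IntermediateField ℂ K} {m : ℕ} (t : Fin m → E) (D : ℕ) (H : Set E) : Prop :=
  ∀ a : Fin m → ℕ, ∑ j, a j ≤ D → ∏ j, t j ^ a j ∈ H

/-- (One), or one of the criteria for it. -/
def ConditionOne (M : IntermediateField L K) (E : IntermediateField ℂ K) (H : Set E) : Prop :=
  OneFibre M E H ∨ SeparatesPoints E H (deg M E) ∨
    ∃ (m : ℕ) (t : Fin m → E) (ρ : ℕ), RegularityLe M E t ρ ∧ AllForms t ρ H

/-- (Two), or one of the criteria for it. -/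
def ConditionTwo (M : IntermediateField L K) (E : IntermediateField ℂ K) (H : Set E) : Prop :=
  TwoFibres M E H ∨ SeparatesPoints E H (2 * deg M E) ∨
    ∃ (m : ℕ) (t : Fin m → E) (ρ : ℕ), RegularityLe M E t ρ ∧ AllForms t (2 * ρ + 1) H

end

/-- The geometric genus of the varieties of dimension `w` over `k` with the function field `K` is at
most `g`: any `g + 1` canonical forms which are regular at all prime divisors are linearly
dependent over `k`. -/
def GenusLe (k K : Type) [Field k] [Field K] [Algebra k K] (w g : ℕ) : Prop :=
  ∀ ω : Fin (g + 1) → (Fin w → Derivation k K K) → K, (∀ j, IsPluri 1 (ω j)) →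
    (∀ j (P : Place k K), Divisorial w P → RegAt P (ω j)) →
    ∃ c : Fin (g + 1) → k, c ≠ 0 ∧ ∀ D, ∑ j, algebraMap k K (c j) * ω j D = 0

section

variable {K : Type} [Field K] [Algebra ℂ K]

/-- Let `B` and `K` be the function fields of `X` and of a variety which is fibred over `X` by
curves. The genus of the geometric generic fibre is at most `g`. The function field of the geometric
generic fibre is the field generated by `K` over the algebraic closure of `B`. -/
def FibreGenusLe (B : IntermediateField ℂ K) (g : ℕ) : Prop :=
  GenusLe (algebraicClosure B (AlgebraicClosure K))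
    (IntermediateField.adjoin (algebraicClosure B (AlgebraicClosure K))
      (algebraMap K (AlgebraicClosure K) '' (⊤ : IntermediateField ℂ K))) 1 g

variable {k : ℕ}

/-- The form `ω` is a section of `K_V - ∑ L i`: its products with sections of the linear systems are
regular at all prime divisors. -/
def IsTwisted {F : Fin k → IntermediateField ℂ K} (H : ∀ i, Set (F i)) (N : ℕ)
    (ω : (Fin N → Derivation ℂ K K) → K) : Prop :=
  IsPluri 1 ω ∧ ∀ f : ∀ i, F i, (∀ i, f i ∈ H i) → ∀ P : Place ℂ K, Divisorial N P →
    RegAt P (fun D => (∏ i, (f i : K)) * ω D)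

/-- The function field of the image `X` of `V` in the product of the `X i`. -/
noncomputable def Base (F : Fin k → IntermediateField ℂ K) : IntermediateField ℂ K := ⨆ i, F i

/-- The function field of the image `W_i` of `V` in the product of `W` and `X 0, ..., X (i - 1)`. -/
noncomputable def Img (F : Fin k → IntermediateField ℂ K) (L : Type) [Field L] [Algebra L K]
    (i : ℕ) : IntermediateField L K :=
  IntermediateField.adjoin L {z | ∃ l : Fin k, l.val < i ∧ z ∈ F l}

theorem img_eq (F : Fin k → IntermediateField ℂ K) (L : Type) [Field L] [Algebra L K] (i : ℕ) :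
    N145.PC.MF F L (N145.PC.Js k i) = Img F L i := by
  unfold N145.PC.MF N145.PC.MJ Img
  congr 1
  ext z
  simp only [Set.mem_iUnion, N145.PC.mem_Js, Set.mem_range, exists_prop]
  constructor
  · rintro ⟨l, hl, z, rfl⟩
    exact ⟨l, hl, z.2⟩
  · rintro ⟨l, hl, hz⟩
    exact ⟨l, hl, ⟨z, hz⟩, rfl⟩

end

/-- `p_g ≠ 0` for the varieties of dimension `N` with the function field `L`: there is a nonzero
canonical form which is regular at all prime divisors. -/
def HasCanonicalForm (L : Type) [Field L] [Algebra ℂ L] (N : ℕ) : Prop :=
  ∃ ω : (Fin N → Derivation ℂ L L) → L,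
    (IsPluri 1 ω ∧ ∀ P : Place ℂ L, Divisorial N P → RegAt P ω) ∧ ∃ D, ω D ≠ 0

/-- **Iitaka's inequality for the fibrations of the images of fibrations by curves.** Let `K` be the
function field of a variety `V` of dimension `n + 1`, let `F i`, `i < k`, be the function fields of
varieties `X i` which are dominated by `V`, such that the image `X` of `V` in the product of the `X i`
has dimension `n` and its function field is algebraically closed in `K`. Let `H i` be linear systems
on the `X i`, let the genus of the geometric generic fibre of `V ⇢ X` be at most `r`, and let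
`ω 1, ..., ω r` be sections of `K_V - ∑ L i` which are linearly independent over the function field of
`X`. Let `L ⊆ K` be the function field of a variety `W`, and let the extension be finite.

Let `Y ⊆ L` be the function field of a variety of dimension `d` with `κ ≥ 0`; it is dominated by `W`,
and the generic fibre, of dimension `f`, has the function field `L` over `Y`.
* If (One) holds for all `i`, and the canonical divisor of the generic fibre is pseudo-effective,
  then `p_g(W) ≠ 0`.
* If (Two) holds for all `i` then `κ(W) ≥ n = dim W - 1` if the canonical divisor of the generic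
  fibre is pseudo-effective; and if `κ ≥ q` for the generic fibre and `κ ≥ s` for `Y`, then
  `κ(W) ≥ q + s`. -/
theorem result {K : Type} [Field K] [Algebra ℂ K] [Algebra.EssFiniteType ℂ K] {n k r : ℕ}
    (hK : Algebra.trdeg ℂ K = (n + 1 : ℕ)) (F : Fin k → IntermediateField ℂ K)
    (hb : Algebra.trdeg ℂ (Base F) = n) (hcl : ∀ z : K, IsAlgebraic (Base F) z → z ∈ Base F)
    (H : ∀ i, Set (F i)) (hH : ∀ i, 1 ∈ H i) (hr : FibreGenusLe (Base F) r)
    (ω : Fin r → (Fin (n + 1) → Derivation ℂ K K) → K) (hω : ∀ j, IsTwisted H (n + 1) (ω j))
    (hind : ∀ b : Fin r → Base F, (∀ D, ∑ j, (b j : K) * ω j D = 0) → b = 0)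
    (L : Type) [Field L] [Algebra ℂ L] [Algebra L K] [IsScalarTower ℂ L K]
    [FiniteDimensional L K] (Y : IntermediateField ℂ L) {d f : ℕ}
    (hd : Algebra.trdeg ℂ Y = d) (hf : Algebra.trdeg Y L = f)
    (hY : KodGe ℂ Y d (fun _ => False) 0) :
    ((∀ i : Fin k, ConditionOne (Img F L i) (F i) (H i)) → Psef Y L f (fun _ => False) →
      HasCanonicalForm L (n + 1)) ∧
    ((∀ i : Fin k, ConditionTwo (Img F L i) (F i) (H i)) →
      (Psef Y L f (fun _ => False) → KodGe ℂ L (n + 1) (fun _ => False) n) ∧
      ∀ q s : ℕ, KodGe Y L f (fun _ => False) q → KodGe ℂ Y d (fun _ => False) s →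
        KodGe ℂ L (n + 1) (fun _ => False) (q + s)) := by
  classical
  have hreg : ∀ j (P : Place ℂ K), Divisorial (n + 1) P → RegAt P (ω j) := by
    intro j P hP D hD
    have h1 := (hω j).2 (fun _ => 1) hH P hP D hD
    simpa using h1
  obtain ⟨h1, h2⟩ := _root_.Run7.h821.curves_fib (L := L) hK (F := F) (H := H)
    (B := Base F) rfl hb hcl hr hω hreg hind Y hd hf hY
  refine ⟨fun hO hp => ?_, fun hT => ?_⟩
  · obtain ⟨η, hη, D, hD, -⟩ := h1 (fun i => by
      rw [img_eq]
      rcases hO i with h | h | ⟨m, t, ρ, h, h'⟩
      · exact h
      · exact _root_.Run7.h821.one_of_sep le_rfl h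
      · exact _root_.Run7.h821.one_of_reg h.2 h') hp
    exact ⟨η 0, hη 0, D, hD⟩
  · obtain ⟨h3, h4⟩ := h2 (fun i => by
      rw [img_eq]
      rcases hT i with h | h | ⟨m, t, ρ, h, h'⟩
      · exact h
      · exact _root_.Run7.h821.two_of_sep le_rfl h
      · exact _root_.Run7.h821.two_of_reg h.2 h.1 h')
    exact ⟨fun hp => N145.SX.kodGe_of_canGe (h3 hp), h4⟩

end Pool.Agent.Results.MP_f72953_ag.ImagesOfCurveFibrations
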